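import Pool.Agent.U838.RT.Orb

/-!
# Zero in the spectrum for aspherical manifolds with large finite reflection groups

`U : AcyclicGComplex G` is the cellular chain complex of a contractible (or acyclic) complex with a
cellular action of the group `G`, with finite stabilisers and finitely many orbits of cells. The
subgroup `N` of finite index acts freely, so that `M = U / N` is a finite aspherical complex with
the fundamental group `N`; `X : FinRes N` is its cellular chain complex (or any other finite free
resolution of `ℤ` over `ℤ[N]`), and `X.homology (toRed N) i` is `H_i(M; C*_r(N))`.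

`Refl` (file `Pool/Agent/Q169/FT/Stm.lean`): the finite subgroup `K ≤ G` with the Coxeter system
`cs` acts on `U` as a reflection group with the chamber `C` (a subcomplex), and `mir i e` is the set
of (the indices of) the walls of `C` which contain the cell `e` of `C`; every cell of `U` is `w e`
for a unique cell `e` of `C`, and the stabiliser of `e` is generated by the reflections in the walls
which contain `e`. The rank of `K` is `Nat.card T`.

`Dual` (file `Pool/Agent/U838/RT/Main.lean`): `U` has the cohomology with compact supports of
`ℝ^n`, and the reflections reverse the orientation; the latter is automatic if `U` has no cells of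
dimension `n + 1` and no `n`-cell lies in a wall. If `M` is a closed aspherical manifold of
dimension `n` then `U` has the cohomology with compact supports of `ℝ^n`.
-/

set_option autoImplicit false

namespace Pool.Agent.Results.MP_48737f_gt.LargeReflectionGroups

open Pool.Agent.H919R4.ZS (FinRes toRed)
open Pool.Agent.TH38.CX (AcyclicGComplex)
open Pool.Agent.Q169.FT (Refl)
open Pool.Agent.U838.RT (bdU Dual)

/-- Let `M = U / N` be a finite aspherical complex such that `N` is a subgroup of finite index of a
group `G` which acts properly on the universal cover `U`, and let `K ≤ G` be a finite reflection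
group on `U` of rank `k`. Let `L` be the intersection of `N` with the normaliser of `K` in `G`. If
* `H_i(L; C*_r(L)) ≠ 0` for some `i`, or
* `H_c^*(U; ℤ) ≅ H_c^*(ℝ^n; ℤ)` (for instance `M` is a closed aspherical manifold of dimension `n`),
  the reflections reverse the orientation, and `n - 3 ≤ k ≤ n`,
then `H_i(M; C*_r(N)) ≠ 0` for some `i`. -/
theorem result {G : Type} [Group G] (U : AcyclicGComplex G)
    (hst : ∀ i (e : U.E i), Finite (MulAction.stabilizer G e))
    (hcof : ∀ i, ∃ s : Finset (U.E i), ∀ e : U.E i, ∃ g : G, g • e ∈ s)
    (K : Subgroup G) {T : Type} {M : CoxeterMatrix T} (cs : CoxeterSystem M K)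
    (C : ∀ i, Set (U.E i)) (mir : ∀ i, U.E i → Set T)
    (hR : Refl (bdU U) cs (fun _ => Set.univ) C mir (fun _ e w => w • e))
    (N : Subgroup G) [N.FiniteIndex] (hN : ∀ i, ∀ g ∈ N, ∀ e : U.E i, g • e = e → g = 1)
    (h : (∃ (Y : FinRes ((Subgroup.normalizer (K : Set G)).subgroupOf N)) (i : ℕ),
      Nontrivial (Y.homology (toRed _) i)) ∨
      ∃ n d, Dual U cs (fun _ k e => k • e) C mir n ∧ n = d + Nat.card T ∧ d ≤ 3) :
    Nonempty (FinRes N) ∧ ∀ X : FinRes N, ∃ i, Nontrivial (X.homology (toRed N) i) :=
  Pool.Agent.U838.RT.orb U hst hcof K cs C mir hR N hN h

end Pool.Agent.Results.MP_48737f_gt.LargeReflectionGroups
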