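import Pool.Agent.U670.ZM.Final

/-!
The zero-in-the-spectrum conjecture for closed aspherical manifolds with a covering in which two
locally finite cycles of complementary dimensions cross each other.

`X : FinRes G` is the cellular chain complex of the universal cover of a closed aspherical
manifold `M` with fundamental group `G` (`Pool.Agent.H919R4.ZS.Defs`), `X.len` is the dimension of
`M`, `P : Duality X` is Poincaré duality (or any chain map `C_* → C^(n - *)` given by matrices over
`ℤ[G]`) and `X.homology (toRed G) i` is `H_i(M; C*_r(G))`. Locally finite chains of the covering
`M_C` with fundamental group `C ≤ G` and with coefficients in a unitary representation `π` of `C`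
are defined in `Pool.Agent.U670.ZS.Defs`, coarse transversality, growth and intersection numbers in
`Pool.Agent.U670.ZM.Defs`, unitary representations, the boundary and tempered representations in
`Pool.Agent.TH98.ZT.Defs`, amenability (the Foelner condition) in `Pool.Agent.H496R3.ZS.Stmt`.

Example: `C = 1` and two flats (or subspaces of subexponential growth) of dimensions `k` and
`n - k` in `M̃`, which diverge from each other and have a nonzero intersection number. No group has
to act cocompactly on them. The proof: if the homology vanishes up to degree `k` then `1 - κ Δ` is
a contraction of the `ℓ²`-chains of degree `k`, of finite propagation, which does not change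
intersection numbers; so `|f ⋅ f'|²` is at most `(1 + ε)^(-r)` times the product of the masses near
the intersection.
-/

set_option autoImplicit false

namespace Pool.Agent.Results.MP_48737f_gt.TransverseCycles

open Pool.Agent.H919R4.ZS (FinRes toRed)
open Pool.Agent.H496R3.ZS (IsAmenable)
open Pool.Agent.TH98.ZT (URep Tempered)
open Pool.Agent.U670.ZS Pool.Agent.U670.ZM

/-- Let `M` be a closed aspherical manifold of dimension `n`, `C` a subgroup of its fundamental
group `G` and `π` a unitary representation of `C`, such that `C` is amenable or `π` is weakly
contained in the regular representation of `C`. Let `f` and `f'` be locally finite cycles of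
dimensions `k` and `l = n - k` on the covering `M_C`, with coefficients in `π`, such that each
neighbourhood of `f` meets `f'` in a finite set, `f` has subexponential growth near `f'` and `f'`
near `f`. If the intersection number of `f` and `f'` is not zero, then `H_i(M; C*_r(G)) ≠ 0` for
some `i ≤ k`. -/
theorem result (G : Type) [Group G] (X : FinRes G) (P : Duality X) (C : Subgroup G)
    (V : Type) [NormedAddCommGroup V] [InnerProductSpace ℂ V] (π : URep C V)
    (hπ : IsAmenable C ∨ Tempered π) (k l : ℕ) (hkl : k + l = X.len)
    (f : Fin (X.n k) → G → V) (f' : Fin (X.n l) → G → V) (hf : IsLf π f) (hf' : IsLf π f')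
    (hc : IsCyc X k f) (hc' : IsCyc X l f') (htr : Transverse C f f')
    (hsub : MutuallySubexp C f f') (h0 : crossing P C k l f f' ≠ 0) :
    ∃ i ≤ k, Nontrivial (X.homology (toRed G) i) :=
  main X P k l hkl hπ f f' hf hf' hc hc' htr hsub h0

end Pool.Agent.Results.MP_48737f_gt.TransverseCycles
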