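import Pool.Agent.N506.EX0
import Pool.Agent.N506.EXI0
import Pool.Agent.N506.EY0
import Pool.Agent.N506.EXM
import Pool.Agent.U563.TG.Def2
import Pool.Agent.U563.TG.I

/-!
# Matrix groups over group rings of groups acting on trees

Let `A` be an arbitrary commutative ring and let `G` be a group which is locally and virtually a
subgroup of a finite direct product of groups `S` acting on trees, where either

* (`TreeGroup`) `S` has a homomorphism to a poly-(torsion-free abelian) group whose kernel acts with
  trivial edge stabilizers and with vertex stabilizers which embed in one poly-(torsion-free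
  abelian) group, or
* (`CyclicTree`) the vertex stabilizers of `S` embed in one poly-(torsion-free abelian) group, the
  edge stabilizers have rank at most one, and their nontrivial elements are visible in the vertex
  stabilizers.

Every group with a homomorphism to `GL_n(A[G])` with exact kernel is exact; if it is countable, it
embeds coarsely into a Hilbert space. Generalized Baumslag-Solitar groups and tubular groups satisfy
`CyclicTree`.
-/

namespace Pool.Agent.Results.MP_48737f_gt.TreeGroupRings

open Pool.Agent.N506.EX Pool.Agent.U563.GP Pool.Agent.U563.TG

universe u

theorem result (A : Type u) [CommRing A] (G : Type u) [Group G] (hG : LocTree G) (n : ℕ)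
    (P : Type u) [Group P] (φ : P →* (Matrix (Fin n) (Fin n) (MonoidAlgebra A G))ˣ)
    (hφ : IsExact φ.ker) :
    IsExact P ∧ (Countable P → CoarselyEmbeds P) := by
  have h0 : MEx (MonoidAlgebra A G) := mex_commRing (fun K _ => (hG.lq K).mex) A
  have h1 : IsExact P := (Ex.ext φ (h0 n) hφ.ex).isExact
  exact ⟨h1, fun _ => h1.coarselyEmbeds⟩

end Pool.Agent.Results.MP_48737f_gt.TreeGroupRings
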