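import Pool.Agent.U670.ZP.Final

/-!
The zero-in-the-spectrum conjecture for closed aspherical manifolds (and finite aspherical
complexes) and the weighted `ℓ^p`-homology of their amenable coverings, for `p` near `2`.

`X : FinRes G` is the cellular chain complex of the universal cover of a closed aspherical
manifold, or of a finite aspherical complex, `M` with fundamental group `G`
(`Pool.Agent.H919R4.ZS.Defs`) and `X.homology (toRed G) i` is `H_i(M; C*_r(G))`. Locally finite
chains of the covering `M_C` with fundamental group `C ≤ G`, with coefficients in a unitary
representation `π` of `C`, are defined in `Pool.Agent.U670.ZS.Defs`; slowly varying weights, the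
weighted `ℓ^p`-norm and the vanishing, with a constant, of the weighted `ℓ^p`-homology and
`ℓ^p`-cohomology in `Pool.Agent.U670.ZP.Stmt`; unitary representations and tempered
representations in `Pool.Agent.TH98.ZT.Defs`, amenability (the Foelner condition) in
`Pool.Agent.H496R3.ZS.Stmt`.
-/

set_option autoImplicit false

namespace Pool.Agent.Results.MP_48737f_gt.WeightedLpHomology

open Pool.Agent.H919R4.ZS (FinRes toRed)
open Pool.Agent.H496R3.ZS (IsAmenable)
open Pool.Agent.TH98.ZT (URep Tempered)
open Pool.Agent.U670.ZS Pool.Agent.U670.ZP

/-- Suppose that for every finite set `S ⊆ G`, every `ε > 0` and every `K` there are a subgroup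
`C` of `G` and a unitary representation `π` of `C` on a Hilbert space, such that `C` is amenable or
`π` is weakly contained in the regular representation of `C`, a real number `p` with `|p - 2| < ε`
and a weight `w` on the cells of the covering `M_C` which is slowly varying at scale `(S, ε)`, such
that the `w`-weighted `ℓ^p`-homology or `ℓ^p`-cohomology of `M_C` in degree `k` with coefficients
in `π` is not zero, or is zero only with a constant larger than `K`. Then `H_i(M; C*_r(G)) ≠ 0` for
some `i ≤ k`. -/
theorem result (G : Type) [Group G] (X : FinRes G) (k : ℕ)
    (h : ∀ (S : Finset G) (ε K : ℝ), 0 < ε → ∃ (C : Subgroup G) (V : Type)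
      (_ : NormedAddCommGroup V) (_ : InnerProductSpace ℂ V) (_ : CompleteSpace V)
      (π : URep C V) (p : ℝ) (w : Cos C → ℝ), (IsAmenable C ∨ Tempered π) ∧ |p - 2| < ε ∧
        SlowWeight S ε w ∧ ¬ (HomologyZero X k π p w K ∧ CohomologyZero X k π p w K)) :
    ∃ i ≤ k, Nontrivial (X.homology (toRed G) i) :=
  main X k h

end Pool.Agent.Results.MP_48737f_gt.WeightedLpHomology
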